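import Pool.Agent.Helper54.DI.StmtsA

/-! A prime ideal attached to a set that is not covered by finitely many hyperplanes. -/

namespace Pool.Agent.Helper57.DI

open Finset Filter Topology Pool.Agent.Helper54.DI

/-- the polynomials that vanish at the points of `B` outside the hyperplanes of `H` -/
noncomputable def van {d : ℕ} (B : Set (Fin d → ℝ)) (H : List (KForm d)) :
    Ideal (MvPolynomial (Fin d) KK) where
  carrier := {p | ∀ x ∈ B, (∀ h ∈ H, kev h x ≠ 0) → MvPolynomial.aeval x p = 0}
  zero_mem' := by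
    intro x _ _
    exact map_zero _
  add_mem' := by
    intro p q hp hq x hx hH
    rw [map_add, hp x hx hH, hq x hx hH, add_zero]
  smul_mem' := by
    intro r p hp x hx hH
    rw [smul_eq_mul, map_mul, hp x hx hH, mul_zero]

theorem mem_van {d : ℕ} (B : Set (Fin d → ℝ)) (H : List (KForm d))
    (p : MvPolynomial (Fin d) KK) :
    p ∈ van B H ↔ ∀ x ∈ B, (∀ h ∈ H, kev h x ≠ 0) → MvPolynomial.aeval x p = 0 := Iff.rfl

theorem aeval_toP {d : ℕ} (f : KForm d) (x : Fin d → ℝ) :
    MvPolynomial.aeval x (toP f) = kev f x := by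
  unfold toP kev
  rw [map_add, map_sum, MvPolynomial.aeval_C]
  congr 1
  apply Finset.sum_congr rfl
  intro i _
  rw [map_mul, MvPolynomial.aeval_C, MvPolynomial.aeval_X]
  rfl

theorem st_Z1 : ST_Z1 := by
  intro d B hB Z hZ
  classical
  have hpt : ∀ H : List (KForm d), (∀ h ∈ H, h.1 ≠ 0) → ∃ x ∈ B, ∀ h ∈ H, kev h x ≠ 0 := by
    intro H hH
    by_contra hcon
    push Not at hcon
    exact hB ⟨H, hH, hcon⟩
  let S : Set (Ideal (MvPolynomial (Fin d) KK)) :=
    {I | ∃ H : List (KForm d), (∀ h ∈ H, h.1 ≠ 0) ∧ (∀ z ∈ Z, z ∈ H) ∧ I = van B H}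
  have hS : S.Nonempty := ⟨van B Z, Z, hZ, fun z hz => hz, rfl⟩
  obtain ⟨I, ⟨H, hH, hZH, rfl⟩, hmax⟩ := set_has_maximal_iff_noetherian.mpr
    (inferInstance : IsNoetherian (MvPolynomial (Fin d) KK) (MvPolynomial (Fin d) KK)) S hS
  have htop : van B H ≠ ⊤ := by
    intro h
    obtain ⟨x, hx, hxH⟩ := hpt H hH
    have h1 : (1 : MvPolynomial (Fin d) KK) ∈ van B H := by
      rw [h]
      exact Submodule.mem_top
    have h2 := (mem_van B H 1).mp h1 x hx hxH
    rw [map_one] at h2
    exact one_ne_zero h2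
  have hrad : (van B H).radical = van B H := by
    apply le_antisymm
    · intro g hg
      obtain ⟨n, hn⟩ := Ideal.mem_radical_iff.mp hg
      intro x hx hxH
      have h1 := (mem_van B H _).mp hn x hx hxH
      rw [map_pow] at h1
      exact eq_zero_of_pow_eq_zero h1
    · exact Ideal.le_radical
  obtain ⟨P, hP⟩ := Ideal.nonempty_minimalPrimes htop
  have hPp : P.IsPrime := hP.1.1
  have hIP : van B H ≤ P := hP.1.2
  have hfin : (van B H).minimalPrimes.Finite := Ideal.finite_minimalPrimes_of_isNoetherianRing _ _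
  have hne : ¬ ((hfin.toFinset.erase P).inf id ≤ P) := by
    intro hle
    rw [Ideal.IsPrime.inf_le' hPp] at hle
    obtain ⟨Q, hQ, hQP⟩ := hle
    rw [Finset.mem_erase, Set.Finite.mem_toFinset] at hQ
    have h1 : P ≤ Q := hP.2 hQ.2.1 hQP
    exact hQ.1 (le_antisymm hQP h1)
  obtain ⟨c, hc1, hc2⟩ := SetLike.not_le_iff_exists.mp hne
  have hcQ : ∀ Q ∈ (van B H).minimalPrimes, Q ≠ P → c ∈ Q := by
    intro Q hQ hQP
    have h1 : (hfin.toFinset.erase P).inf id ≤ id Q :=
      Finset.inf_le (Finset.mem_erase.mpr ⟨hQP, hfin.mem_toFinset.mpr hQ⟩)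
    exact h1 hc1
  have ha : ∀ g ∈ P, ∀ x ∈ B, (∀ h ∈ H, kev h x ≠ 0) → MvPolynomial.aeval x c ≠ 0 →
      MvPolynomial.aeval x g = 0 := by
    intro g hg x hx hxH hcx
    have h1 : g * c ∈ sInf (van B H).minimalPrimes := by
      rw [Submodule.mem_sInf]
      intro Q hQ
      by_cases hQP : Q = P
      · subst hQP
        exact Ideal.mul_mem_right c Q hg
      · exact Ideal.mul_mem_left Q g (hcQ Q hQ hQP)
    rw [Ideal.sInf_minimalPrimes, hrad] at h1
    have h2 := (mem_van B H _).mp h1 x hx hxH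
    rw [map_mul] at h2
    exact (mul_eq_zero.mp h2).resolve_right hcx
  refine ⟨H, P, c, hH, hZH, hPp, hc2, ha, ?_, ?_⟩
  · intro h hh
    have h1 : h * c ∉ van B H := by
      intro hmem
      rcases hPp.mem_or_mem (hIP hmem) with h2 | h2
      · exact hh h2
      · exact hc2 h2
    rw [mem_van] at h1
    push Not at h1
    obtain ⟨x, hx, hxH, hval⟩ := h1
    rw [map_mul] at hval
    exact ⟨x, hx, hxH, right_ne_zero_of_mul hval, left_ne_zero_of_mul hval⟩
  · intro f hf hfP
    have hle : van B H ≤ van B (f :: H) := by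
      intro p hp x hx hxH
      exact hp x hx (fun h hh => hxH h (List.mem_cons_of_mem f hh))
    have hmem : van B (f :: H) ∈ S := by
      refine ⟨f :: H, ?_, ?_, rfl⟩
      · intro h hh
        rcases List.mem_cons.mp hh with h1 | h1
        · rw [h1]
          exact hf
        · exact hH h h1
      · intro z hz
        exact List.mem_cons_of_mem f (hZH z hz)
    have heq : van B (f :: H) ≤ van B H := by
      by_contra hcon
      exact hmax _ hmem (lt_of_le_not_ge hle hcon)
    apply hc2
    apply hIP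
    apply heq
    intro x hx hxH
    by_contra hcx
    have h1 := ha (toP f) hfP x hx (fun h hh => hxH h (List.mem_cons_of_mem f hh)) hcx
    rw [aeval_toP] at h1
    exact hxH f List.mem_cons_self h1

end Pool.Agent.Helper57.DI
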